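import Pool.Agent.MP_c1891a_nt.H43.Spec

/-
The determinant method for rational points near a transcendental arc.
-/

namespace Pool.Agent.MP_c1891a_nt.H43

open Finset Polynomial Filter Topology

lemma bp_indep {d : ℕ} {γ : ℝ → ℝ} {v₁ : ℝ}
    (h : ∀ W : ℝ[X][X], (∀ᶠ v in 𝓝 v₁, W.evalEval v (γ v) = 0) → W = 0)
    (w : Fin d × Fin d → ℝ)
    (hw : ∀ᶠ v in 𝓝 v₁, ∑ i, w i * (γ v ^ (i.1 : ℕ) * v ^ (i.2 : ℕ)) = 0) : w = 0 := by
  have h0 := h (∑ i : Fin d × Fin d, C (C (w i) * X ^ (i.2 : ℕ)) * X ^ (i.1 : ℕ)) (by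
    filter_upwards [hw] with v hv
    rw [← hv]
    simp only [evalEval, eval_finsetSum, eval_mul, eval_C, eval_pow, eval_X]
    exact sum_congr rfl fun i _ => by ring)
  funext i₀
  have h1 := congrArg (fun W : ℝ[X][X] => (W.coeff i₀.1).coeff i₀.2) h0
  simp only [finsetSum_coeff, coeff_C_mul_X_pow, coeff_zero] at h1
  rw [sum_eq_single i₀] at h1
  · simpa using h1
  · intro i _ hi
    split_ifs with h2
    · rw [coeff_C_mul_X_pow, if_neg]
      intro h3
      exact hi (Prod.ext (Fin.ext h2.symm) (Fin.ext h3.symm))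
    · simp
  · simp

lemma bp_lip {d : ℕ} {M u g v : ℝ} (hM : 1 ≤ M) (hu : |u| ≤ M) (hg : |g| ≤ M) (hv : |v| ≤ M)
    (w : Fin d × Fin d → ℝ) (hw : ∀ i, |w i| ≤ 1)
    (h : ∑ i, w i * (u ^ (i.1 : ℕ) * v ^ (i.2 : ℕ)) = 0) :
    |∑ i, w i * (g ^ (i.1 : ℕ) * v ^ (i.2 : ℕ))| ≤
      (d * d * (d * M ^ d * M ^ d) : ℝ) * |u - g| := by
  have e : ∑ i, w i * (g ^ (i.1 : ℕ) * v ^ (i.2 : ℕ)) =
      ∑ i : Fin d × Fin d, w i * ((g ^ (i.1 : ℕ) - u ^ (i.1 : ℕ)) * v ^ (i.2 : ℕ)) := by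
    rw [← sub_zero (∑ i, w i * (g ^ (i.1 : ℕ) * v ^ (i.2 : ℕ))), ← h, ← sum_sub_distrib]
    exact sum_congr rfl fun i _ => by ring
  rw [e]
  refine (abs_sum_le_sum_abs _ _).trans ?_
  have hb : ∀ i ∈ (univ : Finset (Fin d × Fin d)),
      |w i * ((g ^ (i.1 : ℕ) - u ^ (i.1 : ℕ)) * v ^ (i.2 : ℕ))| ≤
        (d * M ^ d * M ^ d) * |u - g| := by
    intro i _
    have a1 : |g ^ (i.1 : ℕ) - u ^ (i.1 : ℕ)| ≤ |u - g| * d * M ^ d := by
      refine (abs_pow_sub_pow_le _ _ _).trans ?_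
      rw [abs_sub_comm g u]
      have b1 : ((i.1 : ℕ) : ℝ) ≤ d := by exact_mod_cast i.1.2.le
      have b2 : max |g| |u| ^ ((i.1 : ℕ) - 1) ≤ M ^ d :=
        (pow_le_pow_left₀ (le_max_of_le_left (abs_nonneg _)) (max_le hg hu) _).trans
          (pow_le_pow_right₀ hM (by have := i.1.2; omega))
      gcongr
    have a2 : |v ^ (i.2 : ℕ)| ≤ M ^ d := by
      rw [abs_pow]
      exact (pow_le_pow_left₀ (abs_nonneg _) hv _).trans (pow_le_pow_right₀ hM i.2.2.le)
    rw [abs_mul, abs_mul]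
    calc |w i| * (|g ^ (i.1 : ℕ) - u ^ (i.1 : ℕ)| * |v ^ (i.2 : ℕ)|)
        ≤ 1 * (|u - g| * d * M ^ d * M ^ d) := by gcongr; exact hw i
      _ = _ := by ring
  refine (sum_le_card_nsmul _ _ _ hb).trans (le_of_eq ?_)
  simp only [card_univ, Fintype.card_prod, Fintype.card_fin, nsmul_eq_mul, Nat.cast_mul]
  ring

lemma bp_sep {N : ℝ} (hN : 0 < N) {m n : ℤ} (h : m ≠ n) : N⁻¹ ≤ |(m / N : ℝ) - n / N| := by
  rw [← sub_div, abs_div, abs_of_pos hN, le_div_iff₀ hN, inv_mul_cancel₀ hN.ne']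
  have : (1 : ℤ) ≤ |m - n| := Int.one_le_abs (sub_ne_zero.mpr h)
  exact_mod_cast this

theorem sBP (h1 : SZE) (h2 : SDet) : SBP := by
  classical
  intro γ a b hγ htr ε hε
  obtain ⟨d', hd'⟩ := exists_nat_gt (2 / ε)
  set d := d' + 2 with hd
  have hθ : (2 / ((d : ℝ) + 1)) ≤ ε := by
    rw [div_lt_iff₀ hε] at hd'
    rw [div_le_iff₀ (by positivity), hd]
    push_cast
    nlinarith
  obtain ⟨K, Az, Nz, hZ⟩ := h1 (Fin d × Fin d) (fun i v => γ v ^ (i.1 : ℕ) * v ^ (i.2 : ℕ)) a b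
    (fun i x hx => ((hγ x hx).pow _).mul (analyticAt_id.pow _))
    (fun v₁ hv₁ w hw => bp_indep (htr v₁ hv₁) w hw)
  obtain ⟨c, Ad, Nd, hc, hD⟩ := h2 γ a b hγ d (by omega)
  obtain ⟨B, hB⟩ := isCompact_Icc.exists_bound_of_continuousOn hγ.continuousOn
  set M : ℝ := |B| + |a| + |b| + 1 with hM
  have hM1 : 1 ≤ M := by
    have := abs_nonneg B; have := abs_nonneg a; have := abs_nonneg b; linarith
  obtain ⟨NL, hNL⟩ := exists_nat_ge (d * d * (d * M ^ d * M ^ d) : ℝ)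
  refine ⟨K * (|b - a| / c + 1), Ad + Az + 2, Nz + Nd + NL + 3, fun N hN S hS => ?_⟩
  have hN3 : (3 : ℝ) ≤ N := by exact_mod_cast (by omega : 3 ≤ N)
  have hN0 : (0 : ℝ) < N := by linarith
  have hN1 : (1 : ℝ) ≤ N := by linarith
  have hle : ∀ {A : ℕ}, A ≤ Ad + Az + 2 → ((N : ℝ) ^ (Ad + Az + 2))⁻¹ ≤ ((N : ℝ) ^ A)⁻¹ :=
    fun h => inv_anti₀ (by positivity) (pow_le_pow_right₀ hN1 h)
  set l : ℝ := c * (N : ℝ) ^ (-(2 / (d + 1)) : ℝ) with hl
  have hl0 : 0 < l := by positivity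
  let k : ℤ × ℤ → ℕ := fun z => ⌊((z.2 / N : ℝ) - a) / l⌋₊
  have hcard : S.card ≤ K * (range (⌊|b - a| / l⌋₊ + 1)).card := by
    refine card_le_mul_card_image_of_maps_to (f := k) (fun z hz => ?_) K fun j _ => ?_
    · rw [mem_range, Nat.lt_succ_iff]
      refine Nat.floor_le_floor (div_le_div_of_nonneg_right ?_ hl0.le)
      linarith [(hS z hz).1.2, le_abs_self (b - a)]
    · set T := S.filter fun z => k z = j with hT
      have hTS : ∀ z ∈ T, z ∈ S := fun z hz => (mem_filter.mp hz).1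
      obtain ⟨w, w1, w2, w3⟩ := hD N (by omega) (a + j * l) T fun z hz => by
        refine ⟨(hS z (hTS z hz)).1, ?_, (hS z (hTS z hz)).2.trans (hle (by omega))⟩
        have e : k z = j := (mem_filter.mp hz).2
        have p0 : 0 ≤ ((z.2 / N : ℝ) - a) / l :=
          div_nonneg (by linarith [(hS z (hTS z hz)).1.1]) hl0.le
        have p1 := Nat.floor_le p0
        have p2 := Nat.lt_floor_add_one (((z.2 / N : ℝ) - a) / l)
        change (k z : ℝ) ≤ _ at p1
        change _ < (k z : ℝ) + 1 at p2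
        rw [e] at p1 p2
        rw [le_div_iff₀ hl0] at p1
        rw [div_lt_iff₀ hl0] at p2
        rw [abs_le]
        constructor <;> linarith
      have hinj : Set.InjOn (fun z : ℤ × ℤ => (z.2 / N : ℝ)) T := by
        intro z hz z' hz' e
        have e' : (z.2 / N : ℝ) = z'.2 / N := e
        have e2 : z.2 = z'.2 := by
          rw [div_left_inj' hN0.ne'] at e'
          exact_mod_cast e'
        refine Prod.ext ?_ e2
        by_contra hne
        have s1 := bp_sep hN0 hne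
        have s2 := (hS z (hTS z hz)).2.trans (hle (A := 2) (by omega))
        have s3 := (hS z' (hTS z' hz')).2.trans (hle (A := 2) (by omega))
        rw [← e'] at s3
        have s4 : |(z.1 / N : ℝ) - z'.1 / N| ≤ 2 * ((N : ℝ) ^ 2)⁻¹ := by
          rw [abs_le] at s2 s3 ⊢
          constructor <;> linarith [s2.1, s2.2, s3.1, s3.2]
        have s5 : 2 * ((N : ℝ) ^ 2)⁻¹ < (N : ℝ)⁻¹ := by
          rw [← div_eq_mul_inv, div_lt_iff₀ (by positivity), sq, ← mul_assoc,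
            inv_mul_cancel₀ hN0.ne']
          linarith
        linarith
      rw [← card_image_of_injOn hinj]
      refine hZ N (by exact_mod_cast (by omega : Nz ≤ N)) w w1 w2 _ (fun v hv => ?_)
        fun v hv v' hv' hne => ?_
      · obtain ⟨z, hz, rfl⟩ := mem_image.mp hv
        obtain ⟨q1, q2⟩ := hS z (hTS z hz)
        refine ⟨q1, ?_⟩
        have g1 : |γ (z.2 / N)| ≤ |B| := (hB _ q1).trans (le_abs_self B)
        have g2 : |(z.1 / N : ℝ) - γ (z.2 / N)| ≤ 1 := by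
          simpa using q2.trans (hle (A := 0) (by omega))
        have g3 : |(z.1 / N : ℝ)| ≤ M := by
          have := abs_sub_abs_le_abs_sub (z.1 / N : ℝ) (γ (z.2 / N))
          have := abs_nonneg a; have := abs_nonneg b
          linarith
        have g4 : |(z.2 / N : ℝ)| ≤ M := by
          have := abs_nonneg B; have := abs_nonneg a; have := abs_nonneg b
          rw [abs_le]
          constructor <;> linarith [q1.1, q1.2, neg_abs_le a, le_abs_self b]
        have g5 : |γ (z.2 / N)| ≤ M := by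
          have := abs_nonneg a; have := abs_nonneg b
          linarith
        refine (bp_lip hM1 g3 g5 g4 w w2 (w3 z hz)).trans ?_
        have g6 : (d * d * (d * M ^ d * M ^ d) : ℝ) ≤ N :=
          hNL.trans (by exact_mod_cast (by omega : NL ≤ N))
        calc (d * d * (d * M ^ d * M ^ d) : ℝ) * |(z.1 / N : ℝ) - γ (z.2 / N)|
            ≤ N * ((N : ℝ) ^ (Az + 1))⁻¹ := by
              gcongr
              exact q2.trans (hle (by omega))
          _ = ((N : ℝ) ^ Az)⁻¹ := by field_simp; ring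
      · obtain ⟨z, hz, rfl⟩ := mem_image.mp hv
        obtain ⟨z', hz', rfl⟩ := mem_image.mp hv'
        exact bp_sep hN0 fun e => hne (by rw [e])
  have hpow : (1 : ℝ) ≤ (N : ℝ) ^ ε := Real.one_le_rpow hN1 hε.le
  have hfl : (⌊|b - a| / l⌋₊ : ℝ) ≤ |b - a| / c * (N : ℝ) ^ ε := by
    refine (Nat.floor_le (by positivity)).trans ?_
    rw [hl, Real.rpow_neg hN0.le, ← div_div, div_inv_eq_mul]
    gcongr
  have hc' : (S.card : ℝ) ≤ K * ((⌊|b - a| / l⌋₊ : ℝ) + 1) := by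
    rw [card_range] at hcard
    exact_mod_cast hcard
  calc (S.card : ℝ) ≤ K * ((⌊|b - a| / l⌋₊ : ℝ) + 1) := hc'
    _ ≤ K * (|b - a| / c * (N : ℝ) ^ ε + (N : ℝ) ^ ε) := by gcongr
    _ = _ := by ring

end Pool.Agent.MP_c1891a_nt.H43
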